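import Pool.Agent.K4H61.DP.Final

set_option autoImplicit false

/-!
# Prime triplets and all other patterns in randomly displaced primes

Move every prime `p`, independently of the others, to a uniformly distributed random integer of
`[p - w(p), p + w(p)]`, and let `S` be the set of the new positions.  How large must the
displacements be so that one can prove that `S` contains infinitely many triplets, i.e. that
infinitely often `n, n + 2, n + 6` are consecutive elements of `S`?

A little more than the mean distance of the primes is enough: if `w(n) / log n → ∞` (and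
`w(n) = o(n)`, `w(m) ≤ C w(n)` for large `m` and `n` within a factor two), then almost surely every pattern
occurs, and at least as often as in Cramér's model.  Precisely: for all finite sets `H ⊆ F`, where `H`
has `k ≥ 1` elements, the number of the `n ≤ x` for which the elements of `S` among the `n + f`,
`f ∈ F`, are exactly the `n + h`, `h ∈ H`, is at least `(1 - o(1)) x / (log x)^k`.  (The triplets are
the case `F = {0, 1, ..., 6}`, `H = {0, 2, 6}`.)  If only `w(n) ≥ A log n`, where `2 A > k - 1`, the
number is at least `((1 - (k - 1) / (2 A))^k - o(1)) x / (log x)^k`; for triplets `A > 1` suffices.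

Proof: given `n`, let `q_p = 1 / (2 w(p) + 1)` for the primes `p` whose interval contains all `n + f`,
and `q_p = 0` for the other primes.  The probability of the pattern at `n` is at least `1 - o(1)`
times the sum of `q_{p_1} ... q_{p_k}` over the `k`-tuples of distinct primes, because by the
inequality of Brun and Titchmarsh few primes can be moved near `n`; and this sum is at least
`(sum q_p - (k - 1) max q_p)^k`.  The average of `sum q_p` over the `n ≤ x` is `(1 + o(1)) / log x`
by the prime number theorem, and the power mean inequality bounds the expected number of patterns.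
The number of patterns is a function of independent variables which changes by at most `2 |F|` if one
of them is changed; an exponential (bounded difference) inequality and the Borel-Cantelli lemma
finish the proof.
-/

namespace Pool.Agent.Results.MP_dddec0_nt.DisplacedPatterns

open MeasureTheory Filter
open Pool.Agent.K4H77.Displ (Displaced dset)
open Pool.Agent.K4H61.DP
open scoped Topology

/-- The widths `⌊√n / 4⌋`, for example, satisfy the condition `Comp`. -/
theorem comp_sqrt : (∀ n : ℕ, 4 * (Nat.sqrt n / 4) ≤ n) ∧ Comp (fun n => Nat.sqrt n / 4) 3 := by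
  refine ⟨fun n => ?_, 10000, fun m n hm hn h1 _ => ?_⟩
  · have := Nat.sqrt_le_self n
    omega
  · change Nat.sqrt m / 4 ≤ 3 * (Nat.sqrt n / 4)
    have h2 : Nat.sqrt m * Nat.sqrt m ≤ m := Nat.sqrt_le m
    have h3 : n < (Nat.sqrt n + 1) * (Nat.sqrt n + 1) := Nat.lt_succ_sqrt n
    have h4 : 100 ≤ Nat.sqrt n := by
      rw [Nat.le_sqrt]
      omega
    have h5 : 2 * Nat.sqrt m ≤ 3 * (Nat.sqrt n + 1) := by
      by_contra h
      push Not at h
      nlinarith
    omega

/-- Let `4 w(n) ≤ n`, `w(n) / n → 0`, and `w(m) ≤ C w(n)` for all large `m`, `n` with `m ≤ 2 n` and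
`n ≤ 2 m`.  Families
of displaced primes with range `w` exist, and for every such family, with set of positions `S`:

(a) if `log n ≤ κ (2 w(n) + 1)` for large `n`, then almost surely, for all finite sets `H ⊆ F`, `H`
with `k ≥ 1` elements and `(k - 1) κ < 1`, and all `ε > 0`, for large `x` at least
`((1 - (k - 1) κ)^k - ε) x / (log x)^k` of the `n ∈ [1, x]` satisfy `n + f ∈ S ↔ f ∈ H` for all
`f ∈ F`;

(b) if `w(n) / log n → ∞`, then almost surely, for all finite sets `H ⊆ F`, `H` with `k ≥ 1` elements,
and all `ε > 0`, for large `x` this number is at least `(1 - ε) x / (log x)^k`. -/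
theorem result (w : ℕ → ℕ) (hw : ∀ n, 4 * w n ≤ n)
    (hlin : Tendsto (fun n : ℕ => (w n : ℝ) / n) atTop (𝓝 0)) (hcomp : ∃ C : ℕ, Comp w C) :
    (∃ (Ω : Type) (_ : MeasurableSpace Ω) (P : Measure Ω) (_ : IsProbabilityMeasure P)
      (X : ℕ → Ω → ℕ), Displaced w P X) ∧
    ∀ (Ω : Type) [MeasurableSpace Ω] (P : Measure Ω) [IsProbabilityMeasure P] (X : ℕ → Ω → ℕ),
      Displaced w P X →
      (∀ κ : ℝ, (∀ᶠ n : ℕ in atTop, Real.log n ≤ κ * (2 * w n + 1)) →
        ∀ᵐ ω ∂P, ∀ F H : Finset ℕ, H ⊆ F → H.Nonempty → ((H.card : ℝ) - 1) * κ < 1 →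
          ∀ ε : ℝ, 0 < ε → ∀ᶠ x : ℕ in atTop,
            ((1 - ((H.card : ℝ) - 1) * κ) ^ H.card - ε) * (x / (Real.log x) ^ H.card)
              ≤ cnt X F H x ω) ∧
      (Tendsto (fun n : ℕ => (w n : ℝ) / Real.log n) atTop atTop →
        ∀ᵐ ω ∂P, ∀ F H : Finset ℕ, H ⊆ F → H.Nonempty →
          ∀ ε : ℝ, 0 < ε → ∀ᶠ x : ℕ in atTop,
            (1 - ε) * (x / (Real.log x) ^ H.card) ≤ cnt X F H x ω) := by
  refine ⟨exists_displaced hw, ?_⟩
  intro Ω _ P _ X hX
  obtain ⟨C, hC⟩ := hcomp
  exact ⟨fun κ hκ => final_a hw hX hlin hC hκ, fun h => final_b hw hX hlin hC h⟩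

end Pool.Agent.Results.MP_dddec0_nt.DisplacedPatterns
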