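import Mathlib
import Pool.Agent.K4H14.IP.Main

/-!
# Independence of the Hardy-Littlewood conjectures for different patterns

For every family `F` of finite patterns that is closed under subsets and translations there is a set
`A` of integers without small prime factors for which the Hardy-Littlewood asymptotics hold for all
patterns of `F`, uniformly in arithmetic progressions with at least `x^(1/K)` terms, and in which
every pattern outside `F` occurs only finitely often. In particular all the Hardy-Littlewood
conjectures for patterns without a prime triplet do not imply that there are infinitely many triplets.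
-/

set_option autoImplicit false

namespace Pool.Agent.Results.MP_dddec0_nt.IndependenceOfPatterns

open Finset

/-- A family of finite sets (the patterns) that contains `{0}` and is closed under subsets and
translations. -/
structure Family (F : Finset ℕ → Prop) : Prop where
  singleton : F {0}
  subset : ∀ G H, F G → H ⊆ G → F H
  translate : ∀ G t, F G ↔ F (G.image (· + t))

/-- The number of residue classes modulo `p` that `G` meets. -/
def classes (G : Finset ℕ) (p : ℕ) : ℕ := (G.image (· % p)).card

/-- The singular series of the pattern `G` along `n ≡ u (mod q)` with all `u + g` prime to `q`: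
the product over all primes `p` of `(1 - ν_p / p) / (1 - 1 / p) ^ |G|`, `ν_p = classes G p`, with
`ν_p` replaced by `0` if `p ∣ q`. -/
noncomputable def sing (G : Finset ℕ) (q : ℕ) : ℝ :=
  ∏' p : ℕ, if p.Prime then
    (if p ∣ q then 1 else 1 - (classes G p : ℝ) / p) / (1 - 1 / (p : ℝ)) ^ G.card else 1

/-- The Hardy-Littlewood asymptotics for the pattern `G` in the set `A`: for all progressions
`u, u + q, ..., u + q (M - 1)` inside `[x, 2x]` with `M ≥ x^(1/K)` terms and all `u + g` prime to `q`,
with the error term of de la Vallée Poussin. -/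
def HL (A : Set ℕ) (G : Finset ℕ) : Prop :=
  ∀ K : ℕ, 1 ≤ K → ∃ c : ℝ, 0 < c ∧ ∃ x₀ : ℕ, ∀ x q u M : ℕ, x₀ ≤ x → 1 ≤ q → x ≤ u →
    u + q * M ≤ 2 * x → x ≤ M ^ K → (∀ g ∈ G, Nat.Coprime (u + g) q) →
    |(Set.ncard {i | i < M ∧ ∀ g ∈ G, u + q * i + g ∈ A} : ℝ) -
        sing G q * ∑ i ∈ range M, 1 / Real.log ((u + q * i : ℕ) : ℝ) ^ G.card| ≤
      M * Real.exp (-c * √(Real.log x))

/-- The large elements `n` of `A` have no prime factor up to `exp (√(log n) / 2)`. -/
def Rough (A : Set ℕ) : Prop :=
  ∃ n₀ : ℕ, ∀ n ∈ A, n₀ ≤ n → ∀ p : ℕ, p.Prime → (p : ℝ) ≤ Real.exp (√(Real.log n) / 2) → ¬ p ∣ n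

/-- `G` contains no prime triplet pattern `{t, t+2, t+6}`, `{t, t+4, t+6}`. -/
def NoTriplet (G : Finset ℕ) : Prop :=
  ∀ t : ℕ, ¬ ({t, t + 2, t + 6} : Finset ℕ) ⊆ G ∧ ¬ ({t, t + 4, t + 6} : Finset ℕ) ⊆ G

open Pool.Agent.K4H14.IP

theorem fam_of (F : Finset ℕ → Prop) (hF : Family F) : Fam F where
  one := hF.singleton
  sub := hF.subset
  tr := fun G n => hF.translate G n

theorem noTriplet_family : Family NoTriplet where
  singleton := by
    intro t
    constructor
    · intro h
      have h1 := h (show t + 2 ∈ ({t, t + 2, t + 6} : Finset ℕ) by simp)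
      rw [mem_singleton] at h1
      omega
    · intro h
      have h1 := h (show t + 4 ∈ ({t, t + 4, t + 6} : Finset ℕ) by simp)
      rw [mem_singleton] at h1
      omega
  subset := by
    intro G H hG hHG t
    exact ⟨fun h => (hG t).1 (h.trans hHG), fun h => (hG t).2 (h.trans hHG)⟩
  translate := by
    have key : ∀ (G : Finset ℕ) (a b t s : ℕ), (({s, s + a, s + b} : Finset ℕ) ⊆ G) →
        (({s + t, s + t + a, s + t + b} : Finset ℕ) ⊆ G.image (· + t)) := by
      intro G a b t s h m hm
      rw [mem_insert, mem_insert, mem_singleton] at hm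
      rw [mem_image]
      rcases hm with h1 | h1 | h1
      · exact ⟨s, h (by simp), h1.symm⟩
      · exact ⟨s + a, h (by simp), by omega⟩
      · exact ⟨s + b, h (by simp), by omega⟩
    have key2 : ∀ (G : Finset ℕ) (a b t s : ℕ), (({s, s + a, s + b} : Finset ℕ) ⊆ G.image (· + t)) →
        ∃ r, (({r, r + a, r + b} : Finset ℕ) ⊆ G) := by
      intro G a b t s h
      have hs := h (show s ∈ ({s, s + a, s + b} : Finset ℕ) by simp)
      rw [mem_image] at hs
      obtain ⟨r, hr, hrs⟩ := hs
      refine ⟨r, fun m hm => ?_⟩
      rw [mem_insert, mem_insert, mem_singleton] at hm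
      rcases hm with h1 | h1 | h1
      · rw [h1]
        exact hr
      · have h2 := h (show s + a ∈ ({s, s + a, s + b} : Finset ℕ) by simp)
        rw [mem_image] at h2
        obtain ⟨r', hr', h3⟩ := h2
        have : m = r' := by omega
        rw [this]
        exact hr'
      · have h2 := h (show s + b ∈ ({s, s + a, s + b} : Finset ℕ) by simp)
        rw [mem_image] at h2
        obtain ⟨r', hr', h3⟩ := h2
        have : m = r' := by omega
        rw [this]
        exact hr'
    intro G t
    constructor
    · intro h s
      constructor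
      · intro h1
        obtain ⟨r, hr⟩ := key2 G 2 6 t s h1
        exact (h r).1 hr
      · intro h1
        obtain ⟨r, hr⟩ := key2 G 4 6 t s h1
        exact (h r).2 hr
    · intro h s
      exact ⟨fun h1 => (h (s + t)).1 (key G 2 6 t s h1), fun h1 => (h (s + t)).2 (key G 4 6 t s h1)⟩

/-- the general statement -/
theorem general (F : Finset ℕ → Prop) (hF : Family F) : ∃ A : Set ℕ, Rough A ∧
    (∀ G : Finset ℕ, G.Nonempty → F G → HL A G) ∧
    ∀ G : Finset ℕ, ¬ F G → {n : ℕ | ∀ g ∈ G, n + g ∈ A}.Finite := by
  obtain ⟨D, A, J0, hB⟩ := blocks_exist F (fam_of F hF)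
  refine ⟨SA A, rough hB, fun G hG hFG K hK => main_est hB G hG hFG K hK, fun G hG => ?_⟩
  exact forb_fin hB (hF.subset {0} ∅ hF.singleton (empty_subset _)) G hG

/-- (1) For every family `F` of patterns closed under subsets and translations there is a set `A` of
integers without small prime factors with the Hardy-Littlewood asymptotics for all patterns of `F`, in
which every pattern outside `F` occurs only finitely often.
(2) In particular there is such a set with the Hardy-Littlewood asymptotics for all patterns that
contain no prime triplet pattern, and with only finitely many triplets. -/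
theorem result :
    (∀ F : Finset ℕ → Prop, Family F → ∃ A : Set ℕ, Rough A ∧
      (∀ G : Finset ℕ, G.Nonempty → F G → HL A G) ∧
      ∀ G : Finset ℕ, ¬ F G → {n : ℕ | ∀ g ∈ G, n + g ∈ A}.Finite) ∧
    (∃ A : Set ℕ, Rough A ∧ (∀ G : Finset ℕ, G.Nonempty → NoTriplet G → HL A G) ∧
      {n : ℕ | n ∈ A ∧ n + 6 ∈ A ∧ (n + 2 ∈ A ∨ n + 4 ∈ A)}.Finite) := by
  refine ⟨general, ?_⟩
  obtain ⟨A, hA, h1, h2⟩ := general NoTriplet noTriplet_family
  refine ⟨A, hA, h1, ?_⟩
  have f1 := h2 {0, 2, 6} (fun h => (h 0).1 (by simp))
  have f2 := h2 {0, 4, 6} (fun h => (h 0).2 (by simp))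
  apply (f1.union f2).subset
  rintro n ⟨h3, h4, h5 | h5⟩
  · left
    intro g hg
    rw [mem_insert, mem_insert, mem_singleton] at hg
    rcases hg with rfl | rfl | rfl
    · exact h3
    · exact h5
    · exact h4
  · right
    intro g hg
    rw [mem_insert, mem_insert, mem_singleton] at hg
    rcases hg with rfl | rfl | rfl
    · exact h3
    · exact h5
    · exact h4

end Pool.Agent.Results.MP_dddec0_nt.IndependenceOfPatterns
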