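import Pool.Agent.K4H10.MT.F1

set_option autoImplicit false

/-!
# The limit of the square sieve for prime tuples

All known results on several primes among `k` linear forms (Goldston–Pintz–Yıldırım, Maynard, Tao, Polymath)
use one method: choose nonnegative weights `W(n)`, sums of squares of functions of level `R`, with `R² ≤ X`,
and compare the mean of `W` with the mean of `W(n) #{i : L i (n) is prime}`. As the primes are equidistributed in
residue classes, the second mean is, up to the factor `1 / (δ(R) log X)`, the mean of `W(n)` times the number of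
forms `L i (n)` without prime factors `p ≤ R`, where `δ(R) = ∏_{p ≤ R} (1 - 1/p)`.

The theorem bounds this ratio for ALL functions of level `R` (all linear combinations of indicator functions of
residue classes with moduli at most `R`), not only for the weights `∑ λ(d₁, …, d_k)` over `d i ∣ L i (n)` with smooth
coefficients: it is at most `(k / (k-1) · log k + o(1)) log R`, uniformly in forms with coefficients up to a
power of `R`. So, on average over such weights, at most `(k / (k-1) · log k + o(1)) log R / log X` of the `k`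
forms are prime. For three primes among `n, n+2, n+4, n+6`, which is what the prime triplets need, the average has
to exceed `2`, but it is at most `1.85 log R / log X`, whatever is assumed on the distribution of primes.

Authors: helper10 (K4).
-/

namespace Pool.Agent.Results.MP_dddec0_nt.SquareWeightsForTuples

open Finset

open scoped Classical

/-- the indicator function of the residue class of `c` modulo `d` -/
noncomputable def cls (d : ℕ) (c : ℤ) : ℤ → ℝ := fun n => if (d : ℤ) ∣ n - c then 1 else 0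

/-- the functions of level `R`: the real linear combinations of indicator functions of residue classes
with moduli `1 ≤ d ≤ R` -/
noncomputable def Level (R : ℝ) : Submodule ℝ (ℤ → ℝ) :=
  Submodule.span ℝ {f | ∃ (d : ℕ) (c : ℤ), 0 < d ∧ (d : ℝ) ≤ R ∧ f = cls d c}

/-- `m` has no prime factor `p ≤ R` -/
def Free (R : ℝ) (m : ℤ) : Prop := ∀ p : ℕ, p.Prime → (p : ℝ) ≤ R → ¬ (p : ℤ) ∣ m

/-- the density `∏_{p ≤ R} (1 - 1/p)` of the integers without prime factors `p ≤ R` -/
noncomputable def dens (R : ℝ) : ℝ := ∏ p ∈ Icc 1 ⌊R⌋₊ with p.Prime, (1 - 1 / (p : ℝ))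

theorem shifts_inj : Function.Injective (![0, 2, 4, 6] : Fin 4 → ℤ) := by
  decide

theorem shifts_size (R : ℝ) (hR : 6 ≤ R) (i : Fin 4) :
    |(((![0, 2, 4, 6] : Fin 4 → ℤ) i : ℤ) : ℝ)| ≤ R := by
  fin_cases i <;> norm_num <;> linarith

theorem shifts_mem (i : Fin 4) : (![0, 2, 4, 6] : Fin 4 → ℤ) i ∈ ({0, 2, 4, 6} : Finset ℤ) := by
  fin_cases i <;> simp

theorem log_bound : (4 : ℝ) / (4 - 1) * Real.log 4 < 1.85 := by
  have h1 : Real.log 4 = 2 * Real.log 2 := by
    rw [show (4 : ℝ) = 2 ^ 2 by norm_num, Real.log_pow]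
    norm_num
  have h2 := Real.log_two_lt_d9
  rw [h1]
  norm_num at h2 ⊢
  linarith

theorem filter_card (R : ℝ) (n : ℤ) :
    (({0, 2, 4, 6} : Finset ℤ).filter (fun h => Free R (n + h))).card =
      ((univ : Finset (Fin 4)).filter
        (fun i => Free R (1 * n + (![0, 2, 4, 6] : Fin 4 → ℤ) i))).card := by
  have h3 : (({0, 2, 4, 6} : Finset ℤ).filter (fun h => Free R (n + h))) =
      ((univ : Finset (Fin 4)).filter
        (fun i => Free R (1 * n + (![0, 2, 4, 6] : Fin 4 → ℤ) i))).image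
        (![0, 2, 4, 6] : Fin 4 → ℤ) := by
    ext h
    simp only [mem_filter, mem_insert, mem_singleton, mem_image, mem_univ, true_and, one_mul]
    constructor
    · rintro ⟨rfl | rfl | rfl | rfl, h4⟩
      · exact ⟨0, h4, rfl⟩
      · exact ⟨1, h4, rfl⟩
      · exact ⟨2, h4, rfl⟩
      · exact ⟨3, h4, rfl⟩
    · rintro ⟨i, h4, rfl⟩
      have h5 := shifts_mem i
      simp only [mem_insert, mem_singleton] at h5
      exact ⟨h5, h4⟩
  rw [h3, Finset.card_image_of_injective _ shifts_inj]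

/-- (1) For every `k ≥ 2`, `ε > 0` and `A ≥ 0` there is an `R₀` such that for all `R ≥ R₀`, all pairwise
non-proportional linear forms `a i * n + b i`, `i < k`, with `a i ≠ 0` and coefficients of size at most `R ^ A`,
and all functions `V 0, ..., V (J-1)` of level `R`, the mean of
`(∑ V j (n)²) * #{i : a i * n + b i has no prime factor p ≤ R}` is at most
`(k / (k-1) * log k + ε) * log R * ∏_{p ≤ R} (1 - 1/p)` times the mean of `∑ V j (n)²`. The means are over `n`
modulo `N`, where `N` is any common multiple of all `d ≤ R`.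

(2) For the four numbers `n, n+2, n+4, n+6` and all large `R` the same holds with the constant `1.85`. -/
theorem result :
    (∀ k : ℕ, 2 ≤ k → ∀ ε : ℝ, 0 < ε → ∀ A : ℝ, 0 ≤ A → ∃ R₀ : ℝ, ∀ R : ℝ, R₀ ≤ R →
      ∀ a b : Fin k → ℤ, (∀ i, a i ≠ 0) → (∀ i j, i ≠ j → a i * b j ≠ a j * b i) →
      (∀ i, |(a i : ℝ)| ≤ R ^ A ∧ |(b i : ℝ)| ≤ R ^ A) →
      ∀ N : ℕ, 0 < N → (∀ d : ℕ, 0 < d → (d : ℝ) ≤ R → d ∣ N) →
      ∀ (J : ℕ) (V : Fin J → ℤ → ℝ), (∀ j, V j ∈ Level R) →
      ∑ n ∈ range N, (∑ j, V j n ^ 2) *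
          ((univ : Finset (Fin k)).filter (fun i => Free R (a i * n + b i))).card ≤
        (k / ((k : ℝ) - 1) * Real.log k + ε) * Real.log R * dens R *
          ∑ n ∈ range N, ∑ j, V j n ^ 2) ∧
    (∃ R₀ : ℝ, ∀ R : ℝ, R₀ ≤ R → ∀ N : ℕ, 0 < N → (∀ d : ℕ, 0 < d → (d : ℝ) ≤ R → d ∣ N) →
      ∀ (J : ℕ) (V : Fin J → ℤ → ℝ), (∀ j, V j ∈ Level R) →
      ∑ n ∈ range N, (∑ j, V j n ^ 2) *
          (({0, 2, 4, 6} : Finset ℤ).filter (fun h => Free R (n + h))).card ≤
        1.85 * Real.log R * dens R * ∑ n ∈ range N, ∑ j, V j n ^ 2) := by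
  have key : ∀ k : ℕ, 2 ≤ k → ∀ ε : ℝ, 0 < ε → ∀ A : ℝ, 0 ≤ A → ∃ R₀ : ℝ, ∀ R : ℝ, R₀ ≤ R →
      ∀ a b : Fin k → ℤ, (∀ i, a i ≠ 0) → (∀ i j, i ≠ j → a i * b j ≠ a j * b i) →
      (∀ i, |(a i : ℝ)| ≤ R ^ A ∧ |(b i : ℝ)| ≤ R ^ A) →
      ∀ N : ℕ, 0 < N → (∀ d : ℕ, 0 < d → (d : ℝ) ≤ R → d ∣ N) →
      ∀ (J : ℕ) (V : Fin J → ℤ → ℝ), (∀ j, V j ∈ Level R) →
      ∑ n ∈ range N, (∑ j, V j n ^ 2) *
          ((univ : Finset (Fin k)).filter (fun i => Free R (a i * n + b i))).card ≤
        (k / ((k : ℝ) - 1) * Real.log k + ε) * Real.log R * dens R *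
          ∑ n ∈ range N, ∑ j, V j n ^ 2 := by
    intro k hk ε hε A hA
    obtain ⟨R₀, hR₀⟩ := Pool.Agent.K4H10.MT.final k hk ε hε A hA
    refine ⟨R₀, fun R hR a b ha hab habR N hN hNd J V hV => ?_⟩
    simp_rw [Finset.sum_mul]
    rw [Finset.sum_comm, Finset.sum_comm (s := range N) (f := fun (n : ℕ) j => V j n ^ 2),
      Finset.mul_sum]
    refine Finset.sum_le_sum fun j _ => ?_
    exact hR₀ R hR a b ha hab habR N hN hNd (V j) (hV j)
  refine ⟨key, ?_⟩
  obtain ⟨R₀, hR₀⟩ := key 4 (by norm_num) (1.85 - 4 / (4 - 1) * Real.log 4)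
    (sub_pos.2 log_bound) 1 zero_le_one
  refine ⟨max 6 R₀, fun R hR N hN hNd J V hV => ?_⟩
  have hR6 : 6 ≤ R := (le_max_left _ _).trans hR
  have h1 := hR₀ R ((le_max_right _ _).trans hR) (fun _ => 1) ![0, 2, 4, 6] (fun _ => one_ne_zero)
    (fun i j hij h => hij (shifts_inj (by rw [one_mul, one_mul] at h; exact h.symm)))
    (fun i => by
      rw [Real.rpow_one]
      refine ⟨?_, shifts_size R hR6 i⟩
      rw [Int.cast_one, abs_one]
      linarith) N hN hNd J V hV
  have h2 : (((4 : ℕ) : ℝ) / (((4 : ℕ) : ℝ) - 1) * Real.log ((4 : ℕ) : ℝ) +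
      (1.85 - 4 / (4 - 1) * Real.log 4)) = 1.85 := by
    push_cast; ring
  rw [h2] at h1
  refine le_trans (le_of_eq ?_) h1
  refine Finset.sum_congr rfl fun n _ => ?_
  rw [filter_card]

end Pool.Agent.Results.MP_dddec0_nt.SquareWeightsForTuples
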