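import Pool.Agent.K4H50.TM.D2

/-!
# Prime triplets with multipliers

For the patterns `(0, h₁, h₂)` such that every prime factor of `h₂ - h₁` divides `h₁` (the two patterns
`(0, 2, 6)` and `(0, 4, 6)` of the prime triplets are of this kind), for a positive proportion of the pairs of
multipliers `(a, b)` of the box `[X^δ, X^(1/2-δ)]²` there are at least `1/2 - ε` times as many primes `p ≤ X` with
`(p + h₁) / a` and `(p + h₂) / b` both prime as Hardy and Littlewood predict.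
-/

set_option autoImplicit false

namespace Pool.Agent.Results.MP_dddec0_nt.TripletMultipliers

open Finset Filter

/-- the number of the residue classes modulo `l` that contain one of `0, h₁, h₂` -/
def classes (h1 h2 l : ℕ) : ℕ := (({0, h1, h2} : Finset ℕ).image (· % l)).card

/-- the local factor at the prime `l` of the prediction for `p`, `(p + h₁) / a`, `(p + h₂) / b` all prime
(it is `(1 - ω / l) / (1 - 1 / l) ^ 3`, `ω` the number of the excluded classes) -/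
noncomputable def localFactor (h1 h2 a b l : ℕ) : ℝ :=
  if l ∣ a then
    if l ∣ b then 0 else if l ∣ h1 then 0 else 1 / (1 - 1 / (l : ℝ)) ^ 2
  else
    if l ∣ b then
      if l ∣ h2 then 0 else 1 / (1 - 1 / (l : ℝ)) ^ 2
    else (1 - (classes h1 h2 l : ℝ) / l) / (1 - 1 / (l : ℝ)) ^ 3

/-- the singular series (for `a = b = 1` the usual one of the triple `0, h₁, h₂`) -/
noncomputable def singularSeries (h1 h2 a b : ℕ) : ℝ := ∏' l : Nat.Primes, localFactor h1 h2 a b l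

/-- the number of the primes `p ≤ X` such that `(p + h₁) / a` and `(p + h₂) / b` are (integers and) primes -/
def count (h1 h2 X a b : ℕ) : ℕ := ((Icc 1 X).filter (fun p => p.Prime ∧ a ∣ p + h1 ∧ b ∣ p + h2 ∧
  ((p + h1) / a).Prime ∧ ((p + h2) / b).Prime)).card

/-- the number of these primes predicted by Hardy and Littlewood -/
noncomputable def prediction (h1 h2 X a b : ℕ) : ℝ :=
  singularSeries h1 h2 a b * X / (a * b * Real.log X * Real.log ((X : ℝ) / a) * Real.log ((X : ℝ) / b))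

open Classical in
/-- the pairs `(a, b)` with `X^δ ≤ a, b ≤ X^(1/2-δ)` and non-vanishing singular series for which the number of the
primes is at least `1/2 - ε` times the predicted number -/
noncomputable def richPairs (h1 h2 : ℕ) (ε δ : ℝ) (X : ℕ) : Finset (ℕ × ℕ) :=
  ((Icc 1 X) ×ˢ (Icc 1 X)).filter (fun x =>
    ((X : ℝ) ^ δ ≤ x.1 ∧ (x.1 : ℝ) ≤ (X : ℝ) ^ (1 / 2 - δ)) ∧ ((X : ℝ) ^ δ ≤ x.2 ∧ (x.2 : ℝ) ≤ (X : ℝ) ^ (1 / 2 - δ)) ∧
    0 < singularSeries h1 h2 x.1 x.2 ∧ (1 / 2 - ε) * prediction h1 h2 X x.1 x.2 ≤ (count h1 h2 X x.1 x.2 : ℝ))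

theorem localFactor_eq (h1 h2 a b l : ℕ) : localFactor h1 h2 a b l = Pool.Agent.K4H50.TM.loc h1 h2 l a b := by
  unfold localFactor Pool.Agent.K4H50.TM.loc
  by_cases ha : l ∣ a <;> by_cases hb : l ∣ b <;>
    simp only [ha, hb, decide_true, decide_false, if_true, if_false, Pool.Agent.K4H50.TM.vv] <;> rfl

theorem singularSeries_eq (h1 h2 a b : ℕ) : singularSeries h1 h2 a b = Pool.Agent.K4H50.TM.Sg h1 h2 a b := by
  unfold singularSeries Pool.Agent.K4H50.TM.Sg
  congr 1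
  funext l
  exact localFactor_eq h1 h2 a b l

/-- **Prime triplets with multipliers.** -/
theorem result (h1 h2 : ℕ) (h0 : 0 < h1) (h12 : h1 < h2) (hr : ∀ l : ℕ, l.Prime → l ∣ h2 - h1 → l ∣ h1)
    (ε : ℝ) (hε : 0 < ε) (hε2 : ε < 1 / 2) :
    ∃ δ κ : ℝ, 0 < δ ∧ δ < 1 / 4 ∧ 0 < κ ∧ ∀ᶠ X : ℕ in atTop,
      κ * Real.log X ^ 2 ≤ ∑ x ∈ richPairs h1 h2 ε δ X, 1 / ((x.1 : ℝ) * x.2) := by
  obtain ⟨δ, κ, hδ, hδ16, hκ, hX⟩ := Pool.Agent.K4H50.TM.rich_density h1 h2 h0 h12 hr ε hε hε2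
  refine ⟨δ, κ, hδ, by linarith, hκ, ?_⟩
  filter_upwards [hX] with X hX
  refine hX.trans (le_of_eq ?_)
  apply sum_congr _ (fun _ _ => rfl)
  ext x
  rw [Pool.Agent.K4H50.TM.mem_Ri]
  unfold richPairs
  rw [mem_filter, mem_product, mem_Icc, mem_Icc]
  unfold prediction count
  rw [singularSeries_eq]
  unfold Pool.Agent.K4H50.TM.Pr Pool.Agent.K4H50.TM.Np
  constructor
  · rintro ⟨b0, b1, b2, b3, b4, b5, b6⟩
    exact ⟨b0, ⟨b1, b2⟩, ⟨b3, b4⟩, b5, b6⟩
  · rintro ⟨b0, ⟨b1, b2⟩, ⟨b3, b4⟩, b5, b6⟩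
    exact ⟨b0, b1, b2, b3, b4, b5, b6⟩

end Pool.Agent.Results.MP_dddec0_nt.TripletMultipliers
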